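import Mathlib
import Pool.Graph.R_seed8.Y166.GM.LemC
import Pool.Graph.R_seed8.Y166.GM.StepGal

/-!
# The function field of the cone is algebraically closed in the function field of the family of
curves
-/

set_option autoImplicit false
set_option linter.unusedSectionVars false
set_option linter.deprecated false

namespace Pool.Agent.H72.GM

open Pool.Agent.Y166.GM

variable {ν : ℕ}

open Polynomial

/-- Polynomials of degree at most `m` from their coefficients. -/
noncomputable def pol {A : Type} [CommRing A] {m : ℕ} (x : Fin (m + 1) → A) : A[X] :=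
  ∑ j : Fin (m + 1), C (x j) * X ^ (j : ℕ)

/-- The parameters of the curves: `ν + 3` polynomials of degree `≤ e`, one of degree `≤ n` and one
of degree `≤ d`. -/
abbrev Idx (ν e n d : ℕ) : Type := (Fin (ν + 3) × Fin (e + 1)) ⊕ (Fin (n + 1) ⊕ Fin (d + 1))

section
variable {A : Type} [CommRing A] {e n d : ℕ}

noncomputable def aP (c : Idx ν e n d → A) (i : Fin (ν + 3)) : A[X] := pol fun p => c (.inl (i, p))
noncomputable def hP (c : Idx ν e n d → A) : A[X] := pol fun p => c (.inr (.inl p))
noncomputable def wP (c : Idx ν e n d → A) : A[X] := pol fun p => c (.inr (.inr p))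

def lin (u b : A) (p : ℕ) : A := if p = 0 then -(u * b) else if p = 1 then b else 0

/-- The affine coordinate with number `i + 1`. -/
def up {A : Type} [Zero A] (f : Fin (ν + 2) → A) : Fin (ν + 3) → A := Fin.cases 0 f

@[simp] theorem up_zero {A : Type} [Zero A] (f : Fin (ν + 2) → A) : up f 0 = 0 := rfl

@[simp] theorem up_succ {A : Type} [Zero A] (f : Fin (ν + 2) → A) (i : Fin (ν + 2)) :
    up f i.succ = f i := rfl

def pert (u : A) (b : Option (Fin (ν + 2)) → A) : Idx ν e n d → A
  | .inl (i, p) => up (fun j => lin u (b (some j)) p) i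
  | .inr (.inl _) => 0
  | .inr (.inr r) => lin u (b none) r

theorem pol_add {m : ℕ} (x y : Fin (m + 1) → A) : pol (fun j => x j + y j) = pol x + pol y := by
  unfold pol
  rw [← Finset.sum_add_distrib]
  refine Finset.sum_congr rfl fun j _ => ?_
  rw [C_add]
  ring

theorem pol_zero {m : ℕ} : pol (fun _ : Fin (m + 1) => (0 : A)) = 0 := by
  unfold pol
  exact Finset.sum_eq_zero fun j _ => by rw [C_0, zero_mul]

theorem pol_lin {m : ℕ} (hm : 1 ≤ m) (u b : A) :
    pol (fun j : Fin (m + 1) => lin u b j) = (X - C u) * C b := by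
  unfold pol
  rw [Fin.sum_univ_eq_sum_range (fun p => C (lin u b p) * X ^ p) (m + 1)]
  obtain ⟨m', rfl⟩ := Nat.exists_eq_add_of_le' hm
  rw [Finset.sum_range_succ', Finset.sum_range_succ']
  rw [Finset.sum_eq_zero]
  · simp only [lin]
    simp
    ring
  · intro p _
    simp [lin]

theorem pol_map {B : Type} [CommRing B] (f : A →+* B) {m : ℕ} (x : Fin (m + 1) → A) :
    (pol x).map f = pol (fun j => f (x j)) := by
  unfold pol
  rw [Polynomial.map_sum]
  refine Finset.sum_congr rfl fun j _ => ?_
  rw [Polynomial.map_mul, Polynomial.map_C, Polynomial.map_pow, Polynomial.map_X]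

theorem pol_coeff {m : ℕ} (x : Fin (m + 1) → A) (j : Fin (m + 1)) : (pol x).coeff j = x j := by
  unfold pol
  rw [Polynomial.finset_sum_coeff, Finset.sum_eq_single j]
  · rw [Polynomial.coeff_C_mul, Polynomial.coeff_X_pow, if_pos rfl, mul_one]
  · intro i _ hij
    rw [Polynomial.coeff_C_mul, Polynomial.coeff_X_pow, if_neg, mul_zero]
    intro h
    exact hij (Fin.ext h.symm)
  · intro h
    exact absurd (Finset.mem_univ _) h

theorem pol_coeff_mem {m : ℕ} (x : Fin (m + 1) → A) (S : Subring A) (h : ∀ j, x j ∈ S) (i : ℕ) :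
    (pol x).coeff i ∈ S := by
  unfold pol
  rw [Polynomial.finset_sum_coeff]
  refine sum_mem fun j _ => ?_
  rw [Polynomial.coeff_C_mul, Polynomial.coeff_X_pow]
  split_ifs
  · rw [mul_one]; exact h j
  · rw [mul_zero]; exact zero_mem _

theorem pol_eval {m : ℕ} (x : Fin (m + 1) → A) (t : A) :
    (pol x).eval t = ∑ j : Fin (m + 1), x j * t ^ (j : ℕ) := by
  unfold pol
  rw [Polynomial.eval_finset_sum]
  refine Finset.sum_congr rfl fun j _ => ?_
  rw [Polynomial.eval_mul, Polynomial.eval_C, Polynomial.eval_pow, Polynomial.eval_X]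

end

/-- The affine coordinates of the point of the curve with parameters `c` at `t`. -/
noncomputable def xs {W : Type} [Field W] {e n d : ℕ} (c : Idx ν e n d → W) (t : W) :
    Option (Fin (ν + 2)) → W
  | some i => (aP c i.succ).eval t / (aP c 0).eval t
  | none => (wP c).eval t / ((hP c).eval t * (aP c 0).eval t ^ 2)

/-- Affine-linear changes of algebraically independent elements. -/
theorem indep_affine {E W σ : Type} [Field E] [Field W] [Algebra E W] (b : σ → W)
    (hb : AlgebraicIndependent E b) (A B : σ → E) (hB : ∀ i, B i ≠ 0) :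
    AlgebraicIndependent E (fun i => algebraMap E W (A i) + algebraMap E W (B i) * b i) := by
  rw [algebraicIndependent_iff_injective_aeval]
  let φ : MvPolynomial σ E →ₐ[E] MvPolynomial σ E :=
    MvPolynomial.aeval fun i => MvPolynomial.C (A i) + MvPolynomial.C (B i) * MvPolynomial.X i
  let ψ : MvPolynomial σ E →ₐ[E] MvPolynomial σ E :=
    MvPolynomial.aeval fun i => MvPolynomial.C (B i)⁻¹ * (MvPolynomial.X i - MvPolynomial.C (A i))
  have h1 : ψ.comp φ = AlgHom.id E _ := by
    apply MvPolynomial.algHom_ext
    intro i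
    simp only [φ, ψ, AlgHom.comp_apply, MvPolynomial.aeval_X, map_add, map_mul, AlgHom.id_apply]
    rw [MvPolynomial.algHom_C, MvPolynomial.algHom_C]
    rw [MvPolynomial.algebraMap_eq, ← mul_assoc, ← MvPolynomial.C_mul, mul_inv_cancel₀ (hB i),
      MvPolynomial.C_1]
    ring
  have h2 : (MvPolynomial.aeval fun i => algebraMap E W (A i) + algebraMap E W (B i) * b i) =
      (MvPolynomial.aeval b : MvPolynomial σ E →ₐ[E] W).comp φ := by
    apply MvPolynomial.algHom_ext
    intro i
    simp only [φ, AlgHom.comp_apply, MvPolynomial.aeval_X, map_add, map_mul,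
      MvPolynomial.algHom_C]
  rw [h2]
  have h3 : Function.Injective φ := by
    intro x y hxy
    have := congrArg ψ hxy
    have e1 : ∀ z, ψ (φ z) = z := fun z => congrArg (fun f : MvPolynomial σ E →ₐ[E] _ => f z) h1
    rw [e1, e1] at this
    exact this
  exact (algebraicIndependent_iff_injective_aeval.1 hb).comp h3

section
variable {k E W : Type} [Field k] [Field E] [Field W] [Algebra k E] [Algebra E W] [Algebra k W]
  [IsScalarTower k E W] {e n d : ℕ}

/-- The generic curve, deformed with fixed value at `u`. -/
noncomputable def cc (c0 : Idx ν e n d → E) (u : E) (b : Option (Fin (ν + 2)) → W) : Idx ν e n d → W :=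
  fun i => algebraMap E W (c0 i) + pert (algebraMap E W u) b i

theorem cc_indep (c0 : Idx ν e n d → E) (u v : E)
    (h0 : AlgebraicIndependent k (Sum.elim c0 ![u, v])) (b : Option (Fin (ν + 2)) → W)
    (hb : AlgebraicIndependent E b) :
    AlgebraicIndependent k
      (Sum.elim (cc c0 u b) ![algebraMap E W u, algebraMap E W v]) := by
  rw [algebraicIndependent_iff]
  intro D hD
  let chat : Idx ν e n d ⊕ Fin 2 → MvPolynomial (Option (Fin (ν + 2))) E :=
    Sum.elim (fun i => MvPolynomial.C (c0 i) + pert (MvPolynomial.C u) MvPolynomial.X i)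
      ![MvPolynomial.C u, MvPolynomial.C v]
  have hpert : ∀ {B B' : Type} [CommRing B] [CommRing B'] (f : B →+* B') (u : B) (b : Option (Fin (ν + 2)) → B)
      (i : Idx ν e n d), f (pert u b i) = pert (f u) (fun j => f (b j)) i := by
    intro B B' _ _ f u b i
    rcases i with ⟨i, p⟩ | l | r
    · refine Fin.cases ?_ (fun i => ?_) i
      · simp only [pert, up_zero, map_zero]
      · simp only [pert, up_succ, lin]
        split_ifs <;> simp
    · simp only [pert, map_zero]
    · simp only [pert, lin]
      split_ifs <;> simp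
  have h1 : ∀ x, MvPolynomial.aeval b (chat x) =
      Sum.elim (cc c0 u b) ![algebraMap E W u, algebraMap E W v] x := by
    rintro (i | j)
    · simp only [chat, Sum.elim_inl, map_add, MvPolynomial.algHom_C, cc]
      congr 1
      have := hpert (MvPolynomial.aeval b : MvPolynomial (Option (Fin (ν + 2))) E →ₐ[E] W).toRingHom
        (MvPolynomial.C u) MvPolynomial.X i
      refine Eq.trans this ?_
      congr 1
      · exact MvPolynomial.algHom_C _ _
      · funext j
        exact MvPolynomial.aeval_X _ _
    · fin_cases j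
      · exact MvPolynomial.algHom_C _ _
      · exact MvPolynomial.algHom_C _ _
  have h2 : ∀ x, MvPolynomial.aeval (fun _ : Option (Fin (ν + 2)) => (0 : E)) (chat x) =
      Sum.elim c0 ![u, v] x := by
    rintro (i | j)
    · simp only [chat, Sum.elim_inl, map_add, MvPolynomial.algHom_C]
      have := hpert (MvPolynomial.aeval (fun _ : Option (Fin (ν + 2)) => (0 : E)) :
        MvPolynomial (Option (Fin (ν + 2))) E →ₐ[E] E).toRingHom (MvPolynomial.C u) MvPolynomial.X i
      have e1 : (MvPolynomial.aeval (fun _ : Option (Fin (ν + 2)) => (0 : E)))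
          (pert (MvPolynomial.C u) MvPolynomial.X i) = 0 := by
        refine Eq.trans this ?_
        have e2 : (fun j : Option (Fin (ν + 2)) => (MvPolynomial.aeval (fun _ : Option (Fin (ν + 2)) => (0 : E)) :
          MvPolynomial (Option (Fin (ν + 2))) E →ₐ[E] E).toRingHom (MvPolynomial.X j)) = fun _ => 0 := by
          funext j
          exact MvPolynomial.aeval_X _ _
        rw [e2]
        rcases i with ⟨i, p⟩ | l | r
        · refine Fin.cases ?_ (fun i => ?_) i
          · simp only [pert, up_zero]
          · simp only [pert, up_succ, lin]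
            split_ifs <;> simp
        · rfl
        · simp only [pert, lin]
          split_ifs <;> simp
      rw [e1, add_zero]
      rfl
    · fin_cases j
      · exact MvPolynomial.algHom_C _ _
      · exact MvPolynomial.algHom_C _ _
  have h3 : MvPolynomial.aeval b (MvPolynomial.aeval chat D) = 0 := by
    have e1 : ((MvPolynomial.aeval b : MvPolynomial (Option (Fin (ν + 2))) E →ₐ[E] W).restrictScalars k).comp
        (MvPolynomial.aeval chat : MvPolynomial (Idx ν e n d ⊕ Fin 2) k →ₐ[k] _) =
        MvPolynomial.aeval (Sum.elim (cc c0 u b) ![algebraMap E W u, algebraMap E W v]) := by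
      apply MvPolynomial.algHom_ext
      intro x
      rw [AlgHom.comp_apply, MvPolynomial.aeval_X, MvPolynomial.aeval_X]
      exact h1 x
    rw [← hD, ← e1]
    rfl
  have h4 : MvPolynomial.aeval chat D = 0 := by
    apply algebraicIndependent_iff_injective_aeval.1 hb
    rw [h3, map_zero]
  have h5 : MvPolynomial.aeval (Sum.elim c0 ![u, v]) D = 0 := by
    have e1 : ((MvPolynomial.aeval (fun _ : Option (Fin (ν + 2)) => (0 : E)) :
        MvPolynomial (Option (Fin (ν + 2))) E →ₐ[E] E).restrictScalars k).comp
        (MvPolynomial.aeval chat : MvPolynomial (Idx ν e n d ⊕ Fin 2) k →ₐ[k] _) =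
        MvPolynomial.aeval (Sum.elim c0 ![u, v]) := by
      apply MvPolynomial.algHom_ext
      intro x
      rw [AlgHom.comp_apply, MvPolynomial.aeval_X, MvPolynomial.aeval_X]
      exact h2 x
    rw [← e1, AlgHom.comp_apply, h4, map_zero]
  exact (algebraicIndependent_iff.1 h0) D h5

end

end Pool.Agent.H72.GM
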