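import Mathlib
import Pool.Graph.R_seed8.Y166.GM.Basic
import Pool.Graph.R_seed8.Y166.GM.Sep
import Pool.Agent.H72.GM.Core

/-!
# Curves on the cone over the Veronese variety
-/

set_option autoImplicit false
set_option linter.unusedSectionVars false
set_option linter.deprecated false

namespace Pool.Agent.H72.GM

open Pool.Agent.Y166.GM

variable {ν : ℕ}

open Polynomial

abbrev Tau (ν : ℕ) : Type := Option (Fin (ν + 3) × Fin (ν + 3))

/-- The coordinates `(x i * x j, y)` on the weighted projective space `P(1,...,1,2)` (with `ν + 3`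
coordinates of weight `1`) with weighted homogeneous coordinates `x i`, `y`. -/
def ver {A : Type} [Mul A] (x : Fin (ν + 3) → A) (y : A) : Option (Fin (ν + 3) × Fin (ν + 3)) → A
  | some (i, j) => x i * x j
  | none => y

/-- The weighted projective space `P(1,...,1,2)` (`ν + 3` weights `1` and one weight `2`), embedded
in a projective space by the sections `x i * x j`, `y` of `O(2)`; it is the cone over the Veronese
variety of the projective space of dimension `ν + 2`. -/
def Xcone (ν : ℕ) (k : Type) [Field k] : Set (PP k (Option (Fin (ν + 3) × Fin (ν + 3)))) :=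
  {p | ∃ (x : Fin (ν + 3) → k) (y : k), Rep p (ver x y)}

section general
variable {A : Type} [CommRing A]

theorem pol_natDegree {m : ℕ} (x : Fin (m + 1) → A) : (pol x).natDegree ≤ m := by
  unfold pol
  refine Polynomial.natDegree_sum_le_of_forall_le _ _ fun j _ => ?_
  refine (Polynomial.natDegree_C_mul_X_pow_le _ _).trans ?_
  have := j.2
  omega

theorem pol_coeff_self {m : ℕ} (P : A[X]) (hP : P.natDegree ≤ m) :
    pol (fun l : Fin (m + 1) => P.coeff l) = P := by
  ext i
  by_cases hi : i ≤ m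
  · exact pol_coeff (fun l : Fin (m + 1) => P.coeff l) ⟨i, by omega⟩
  · rw [Polynomial.coeff_eq_zero_of_natDegree_lt (by
      have := pol_natDegree (fun l : Fin (m + 1) => P.coeff l)
      omega), Polynomial.coeff_eq_zero_of_natDegree_lt (by omega)]

theorem pol_smul {m : ℕ} (a : A) (x : Fin (m + 1) → A) : pol (fun j => a * x j) = C a * pol x := by
  unfold pol
  rw [Finset.mul_sum]
  refine Finset.sum_congr rfl fun j _ => ?_
  rw [C_mul, mul_assoc]

/-- The coefficients of the curve with parameters `c`. -/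
noncomputable def Phi {e n d : ℕ} (c : Idx ν e n d → A) : Tau ν × Fin (d + 1) → A
  | (some (i, j), l) => (hP c * aP c i * aP c j).coeff l
  | (none, l) => (wP c).coeff l

theorem Phi_some {e n d : ℕ} (c : Idx ν e n d → A) (i j : Fin (ν + 3)) (l : Fin (d + 1)) :
    Phi c (some (i, j), l) = (hP c * aP c i * aP c j).coeff l := rfl

theorem Phi_none {e n d : ℕ} (c : Idx ν e n d → A) (l : Fin (d + 1)) :
    Phi c (none, l) = (wP c).coeff l := rfl

theorem natDegree_q {e n d : ℕ} (c : Idx ν e n d → A) (i j : Fin (ν + 3)) :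
    (hP c * aP c i * aP c j).natDegree ≤ n + 2 * e := by
  have h1 := pol_natDegree (fun p => c (.inr (.inl p)))
  have h2 := pol_natDegree (fun p => c (.inl (i, p)))
  have h3 := pol_natDegree (fun p => c (.inl (j, p)))
  have h4 := Polynomial.natDegree_mul_le (p := hP c * aP c i) (q := aP c j)
  have h5 := Polynomial.natDegree_mul_le (p := hP c) (q := aP c i)
  unfold hP aP at *
  omega

/-- The polynomials of a vector of coefficients. -/
theorem pol_Phi_some {e n d : ℕ} (hd : n + 2 * e ≤ d) (c : Idx ν e n d → A) (i j : Fin (ν + 3)) :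
    pol (fun l => Phi c (some (i, j), l)) = hP c * aP c i * aP c j :=
  pol_coeff_self _ ((natDegree_q c i j).trans hd)

theorem pol_Phi_none {e n d : ℕ} (c : Idx ν e n d → A) :
    pol (fun l => Phi c (none, l)) = wP c :=
  pol_coeff_self _ (pol_natDegree _)

end general

section
variable {k : Type} [Field k]

theorem forms_smul {σ : Type} {d : ℕ} (a : k) (c : σ × Fin (d + 1) → k) (s : Fin 2 → k) :
    forms (a • c) s = a • forms c s := by
  funext i
  simp only [forms, Pi.smul_apply, smul_eq_mul]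
  rw [Finset.mul_sum]
  refine Finset.sum_congr rfl fun j _ => ?_
  ring

theorem rep_forms {σ : Type} {d : ℕ} {γ : PP k (σ × Fin (d + 1))} {g : σ × Fin (d + 1) → k}
    (h : Rep γ g) (s : Fin 2 → k) (z : PP k σ) : Rep z (forms γ.rep s) ↔ Rep z (forms g s) := by
  obtain ⟨a, ha, hg⟩ := (rep_rep γ).exists_smul h
  rw [hg, forms_smul]
  constructor
  · exact fun h1 => h1.smul ha
  · intro h1
    have := h1.smul (inv_ne_zero ha)
    rw [smul_smul, inv_mul_cancel₀ ha, one_smul] at this
    exact this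

theorem mem_Mor_iff {σ : Type} {d : ℕ} {Z : Set (PP k σ)} {γ : PP k (σ × Fin (d + 1))}
    {g : σ × Fin (d + 1) → k} (h : Rep γ g) :
    γ ∈ Mor Z d ↔ ∀ s : Fin 2 → k, s ≠ 0 → ∃ z ∈ Z, Rep z (forms g s) := by
  constructor
  · intro h1 s hs
    obtain ⟨z, hz, h2⟩ := h1 s hs
    exact ⟨z, hz, (rep_forms h s z).1 h2⟩
  · intro h1 s hs
    obtain ⟨z, hz, h2⟩ := h1 s hs
    exact ⟨z, hz, (rep_forms h s z).2 h2⟩

theorem forms_aff {σ : Type} {d : ℕ} (c : σ × Fin (d + 1) → k) (s : Fin 2 → k) (hs : s 1 ≠ 0)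
    (i : σ) : forms c s i = s 1 ^ d * (pol fun l => c (i, l)).eval (s 0 / s 1) := by
  rw [pol_eval, Finset.mul_sum]
  refine Finset.sum_congr rfl fun j _ => ?_
  have hj : (j : ℕ) ≤ d := Nat.lt_succ_iff.1 j.2
  obtain ⟨l, hl⟩ := Nat.exists_eq_add_of_le hj
  have h2 : d - (j : ℕ) = l := by omega
  have h3 : s 1 ^ d = s 1 ^ (j : ℕ) * s 1 ^ l := by rw [← pow_add, ← hl]
  rw [h2, h3, div_pow]
  field_simp

theorem forms_inf {σ : Type} {d : ℕ} (c : σ × Fin (d + 1) → k) (s : Fin 2 → k) (hs : s 1 = 0)
    (i : σ) : forms c s i = c (i, Fin.last d) * s 0 ^ d := by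
  unfold forms
  rw [Finset.sum_eq_single (Fin.last d)]
  · rw [Fin.val_last, Nat.sub_self, pow_zero, mul_one]
  · intro j _ hj
    have h1 : (j : ℕ) < d := by
      have := j.2
      have h2 : (j : ℕ) ≠ d := fun h => hj (Fin.ext (by rw [h, Fin.val_last]))
      omega
    rw [hs, zero_pow (by omega), mul_zero]
  · intro h
    exact absurd (Finset.mem_univ _) h

/-- No common zeros. -/
def NoZero {σ : Type} {d : ℕ} (g : σ × Fin (d + 1) → k) : Prop :=
  ∀ s : Fin 2 → k, s ≠ 0 → forms g s ≠ 0

theorem NoZero.ne_zero {σ : Type} {d : ℕ} {g : σ × Fin (d + 1) → k} (h : NoZero g) : g ≠ 0 := by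
  intro h0
  apply h ![1, 0] (by
    intro h1
    have := congrFun h1 0
    simp at this)
  rw [h0]
  funext i
  simp [forms]

theorem forms_Phi [IsAlgClosed k] {e n d : ℕ} (hd : n + 2 * e = d) (c : Idx ν e n d → k)
    (s : Fin 2 → k) : ∃ (x : Fin (ν + 3) → k) (y : k), forms (Phi c) s = ver x y := by
  by_cases hs : s 1 = 0
  · obtain ⟨r, hr⟩ := IsAlgClosed.exists_pow_nat_eq
      (s 0 ^ d * c (.inr (.inl (Fin.last n)))) (show 0 < 2 by norm_num)
    refine ⟨fun i => r * c (.inl (i, Fin.last e)), (wP c).coeff d * s 0 ^ d, ?_⟩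
    funext i
    rw [forms_inf _ _ hs]
    rcases i with _ | ⟨i, j⟩
    · rfl
    · rw [Phi_some, Fin.val_last]
      show _ = r * c (.inl (i, Fin.last e)) * (r * c (.inl (j, Fin.last e)))
      have h1 : (hP c * aP c i * aP c j).coeff d =
          c (.inr (.inl (Fin.last n))) * c (.inl (i, Fin.last e)) * c (.inl (j, Fin.last e)) := by
        have e1 : (hP c * aP c i * aP c j).coeff d = (hP c * aP c i * aP c j).coeff (n + e + e) :=
          congrArg _ (by omega)
        rw [e1, Polynomial.coeff_mul_add_eq_of_natDegree_le, Polynomial.coeff_mul_add_eq_of_natDegree_le]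
        · congr 1
          · congr 1
            · exact pol_coeff (fun p => c (.inr (.inl p))) (Fin.last n)
            · exact pol_coeff (fun p => c (.inl (i, p))) (Fin.last e)
          · exact pol_coeff (fun p => c (.inl (j, p))) (Fin.last e)
        · exact pol_natDegree _
        · exact pol_natDegree _
        · refine Polynomial.natDegree_mul_le.trans (Nat.add_le_add (pol_natDegree _)
            (pol_natDegree _))
        · exact pol_natDegree _
      rw [h1]
      calc _ = (s 0 ^ d * c (.inr (.inl (Fin.last n)))) * c (.inl (i, Fin.last e)) *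
            c (.inl (j, Fin.last e)) := by ring
        _ = r ^ 2 * c (.inl (i, Fin.last e)) * c (.inl (j, Fin.last e)) := by rw [hr]
        _ = _ := by ring
  · set t := s 0 / s 1 with ht
    obtain ⟨r, hr⟩ := IsAlgClosed.exists_pow_nat_eq
      (s 1 ^ d * (hP c).eval t) (show 0 < 2 by norm_num)
    refine ⟨fun i => r * (aP c i).eval t, s 1 ^ d * (wP c).eval t, ?_⟩
    funext i
    rw [forms_aff _ _ hs]
    rcases i with _ | ⟨i, j⟩
    · rw [pol_Phi_none]
      rfl
    · rw [pol_Phi_some hd.le]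
      show _ = r * (aP c i).eval t * (r * (aP c j).eval t)
      rw [Polynomial.eval_mul, Polynomial.eval_mul]
      calc _ = (s 1 ^ d * (hP c).eval t) * (aP c i).eval t * (aP c j).eval t := by ring
        _ = r ^ 2 * (aP c i).eval t * (aP c j).eval t := by rw [hr]
        _ = _ := by ring

/-- The stratum of the curves whose projection to the projective space of dimension `ν + 2` has degree `e`. -/
def Mset (ν : ℕ) (k : Type) [Field k] (e d : ℕ) : Set (PP k (Tau ν × Fin (d + 1))) :=
  {γ | ∃ c : Idx ν e (d - 2 * e) d → k, Rep γ (Phi c) ∧ NoZero (Phi c)}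

theorem Mset_sub [IsAlgClosed k] {e d : ℕ} (he : 2 * e ≤ d) : Mset ν k e d ⊆ Mor (Xcone ν k) d := by
  rintro γ ⟨c, hγ, hc⟩
  rw [mem_Mor_iff hγ]
  intro s hs
  obtain ⟨x, y, hxy⟩ := forms_Phi (by omega) c s
  obtain ⟨z, hz⟩ := exists_rep (hc s hs)
  refine ⟨z, ⟨x, y, ?_⟩, hz⟩
  rw [← hxy]
  exact hz

/-- Symmetric matrices of rank one over a polynomial ring. -/
theorem decomp (Q : Fin (ν + 3) → Fin (ν + 3) → k[X]) (hs : ∀ i j, Q i j = Q j i)
    (hr : ∀ i j l m, Q i j * Q l m = Q i m * Q l j) (d : ℕ) (hd : ∀ i j, (Q i j).natDegree ≤ d)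
    (h0 : ∃ i j, Q i j ≠ 0) :
    ∃ (e : ℕ) (h : k[X]) (a : Fin (ν + 3) → k[X]), 2 * e ≤ d ∧ (∀ i, (a i).natDegree ≤ e) ∧
      h.natDegree ≤ d - 2 * e ∧ ∀ i j, Q i j = h * a i * a j := by
  classical
  obtain ⟨i0, hi0⟩ : ∃ i, Q i i ≠ 0 := by
    obtain ⟨i, j, hij⟩ := h0
    refine ⟨i, fun h => hij ?_⟩
    have h1 := hr i j j i
    rw [h, zero_mul, hs j i, ← sq] at h1
    exact pow_eq_zero_iff (two_ne_zero) |>.1 h1
  set q := Q i0 i0 with hq
  have hb : ∀ i j, q * Q i j = Q i0 i * Q i0 j := by
    intro i j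
    have h1 := hr i j i0 i0
    rw [mul_comm, h1, hs i i0]
  obtain ⟨g, hg⟩ := IsPrincipalIdealRing.principal (Ideal.span (Set.range (Q i0)))
  have hg' : Ideal.span (Set.range (Q i0)) = Ideal.span {g} := hg
  have hdvd : ∀ j, g ∣ Q i0 j := by
    intro j
    have h1 : Q i0 j ∈ Ideal.span {g} := by
      rw [← hg']
      exact Ideal.subset_span ⟨j, rfl⟩
    exact Ideal.mem_span_singleton.1 h1
  choose a ha using hdvd
  have hg0 : g ≠ 0 := by
    intro h
    apply hi0
    rw [hq, ha i0, h, zero_mul]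
  have hgm : g ∈ Ideal.span (Set.range (Q i0)) := by
    rw [hg']
    exact Ideal.mem_span_singleton_self g
  obtain ⟨r, hr'⟩ := (Ideal.mem_span_range_iff_exists_fun).1 hgm
  have hra : ∑ i, r i * a i = 1 := by
    have h1 : g * ∑ i, r i * a i = g * 1 := by
      rw [Finset.mul_sum, mul_one]
      conv_rhs => rw [← hr']
      refine Finset.sum_congr rfl fun i _ => ?_
      rw [ha i]
      ring
    exact mul_left_cancel₀ hg0 h1
  set h : k[X] := ∑ i, ∑ j, r i * r j * Q i j with hh
  have hqh : q * h = g ^ 2 := by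
    rw [hh, Finset.mul_sum]
    have h1 : ∀ i, q * ∑ j, r i * r j * Q i j = g ^ 2 * (r i * a i) * ∑ j, r j * a j := by
      intro i
      rw [Finset.mul_sum, Finset.mul_sum]
      refine Finset.sum_congr rfl fun j _ => ?_
      calc q * (r i * r j * Q i j) = r i * r j * (q * Q i j) := by ring
        _ = r i * r j * (Q i0 i * Q i0 j) := by rw [hb]
        _ = r i * r j * (g * a i * (g * a j)) := by rw [← ha, ← ha]
        _ = _ := by ring
    rw [Finset.sum_congr rfl fun i _ => h1 i, ← Finset.sum_mul, ← Finset.mul_sum, hra]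
    ring
  have hQ : ∀ i j, Q i j = h * a i * a j := by
    intro i j
    have h1 : q * Q i j = q * (h * a i * a j) := by
      calc q * Q i j = Q i0 i * Q i0 j := hb i j
        _ = g * a i * (g * a j) := by rw [← ha, ← ha]
        _ = g ^ 2 * a i * a j := by ring
        _ = q * h * a i * a j := by rw [hqh]
        _ = _ := by ring
    exact mul_left_cancel₀ hi0 h1
  have hh0 : h ≠ 0 := by
    intro h1
    apply hi0
    rw [hq, hQ, h1, zero_mul, zero_mul]
  -- the maximal degree
  obtain ⟨i1, hi1⟩ : ∃ i1, a i1 ≠ 0 ∧ ∀ i, (a i).natDegree ≤ (a i1).natDegree := by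
    have hne : (Finset.univ.filter fun i => a i ≠ 0).Nonempty := by
      by_contra hcon
      rw [Finset.not_nonempty_iff_eq_empty] at hcon
      have h1 : ∀ i, a i = 0 := by
        intro i
        by_contra h2
        have : i ∈ (Finset.univ.filter fun i => a i ≠ 0) := by simp [h2]
        rw [hcon] at this
        simp at this
      rw [Finset.sum_eq_zero fun i _ => by rw [h1 i, mul_zero]] at hra
      exact zero_ne_one hra
    obtain ⟨i1, h1, h2⟩ := Finset.exists_max_image _ (fun i => (a i).natDegree) hne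
    refine ⟨i1, (Finset.mem_filter.1 h1).2, fun i => ?_⟩
    by_cases hi : a i = 0
    · rw [hi, Polynomial.natDegree_zero]
      exact Nat.zero_le _
    · exact h2 i (by simp [hi])
  have hdeg : h.natDegree + 2 * (a i1).natDegree ≤ d := by
    have h1 := hd i1 i1
    rw [hQ, Polynomial.natDegree_mul (mul_ne_zero hh0 hi1.1) hi1.1,
      Polynomial.natDegree_mul hh0 hi1.1] at h1
    omega
  exact ⟨(a i1).natDegree, h, a, by omega, hi1.2, by omega, hQ⟩

end

end Pool.Agent.H72.GM
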