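import Mathlib
import Pool.Agent.H72.GM.Main
import Pool.Graph.R_seed8.Y166.GM.Concl

/-!
# The Manin components of the cone over the Veronese variety
-/

set_option autoImplicit false
set_option linter.unusedSectionVars false
set_option linter.deprecated false
set_option linter.style.haveILetI false

namespace Pool.Agent.H72.GM

open Pool.Agent.Y166.GM

variable {ν : ℕ}

open MvPolynomial

section
variable {k : Type} [Field k]

/-- A family of curves which is dense in (the closure of) a stratum contains many curves of the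
stratum. -/
theorem density_red [IsAlgClosed k] [CharZero k] {d e : ℕ} (hd : 1 ≤ d) (h2e : 2 * e ≤ d)
    (D : Set (PP k (Tau ν × Fin (d + 1)))) (hD : D ⊆ Mor (Xcone ν k) d)
    (hcl : Mset ν k e d ⊆ closure D) (m : ℕ) (P : MvPolynomial (Tau ν × Fin (d + 1)) k)
    (hP : P.IsHomogeneous m) (h0 : ∀ γ ∈ Mset ν k e d, γ ∈ D → eval γ.rep P = 0) :
    ∀ γ ∈ Mset ν k e d, eval γ.rep P = 0 := by
  classical
  intro γ0 hγ0
  by_contra hne
  let Us : Finset (Set (PP k (Tau ν × Fin (d + 1)))) :=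
    insert {p | eval p.rep P ≠ 0}
      (((Finset.range (d / 2 + 1)).erase e).image fun e' => (closure (Mset ν k e' d))ᶜ)
  have hUo : ∀ U ∈ Us, IsOpen U := by
    intro U hU
    rcases Finset.mem_insert.1 hU with rfl | hU
    · exact isOpen_basic hP
    · obtain ⟨e', _, rfl⟩ := Finset.mem_image.1 hU
      exact isClosed_closure.isOpen_compl
  have hne' : (Mset ν k e d ∩ ⋂₀ (Us : Set (Set (PP k (Tau ν × Fin (d + 1)))))).Nonempty := by
    refine (isIrreducible_iff_sInter.1 (Mset_irreducible hd h2e)) Us hUo ?_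
    intro U hU
    rcases Finset.mem_insert.1 hU with rfl | hU
    · exact ⟨γ0, hγ0, hne⟩
    · obtain ⟨e', he', rfl⟩ := Finset.mem_image.1 hU
      rw [Finset.mem_erase, Finset.mem_range] at he'
      have h1 : ¬ Mset ν k e d ⊆ closure (Mset ν k e' d) := by
        rcases lt_or_gt_of_ne he'.1 with h | h
        · exact sep_lt hd h2e h
        · exact sep_gt h2e (by omega) h
      rw [Set.not_subset] at h1
      obtain ⟨γ, hγ, hγ'⟩ := h1
      exact ⟨γ, hγ, hγ'⟩
  obtain ⟨γ1, hγ1, hγ1U⟩ := hne'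
  have hopen : IsOpen (⋂₀ (Us : Set (Set (PP k (Tau ν × Fin (d + 1)))))) :=
    Us.finite_toSet.isOpen_sInter hUo
  obtain ⟨γ, hγU, hγD⟩ := mem_closure_iff.1 (hcl hγ1) _ hopen hγ1U
  obtain ⟨e'', he'', hγe⟩ := cover hd (hD hγD)
  have hPγ : eval γ.rep P ≠ 0 :=
    Set.mem_sInter.1 hγU _ (Finset.mem_coe.2 (Finset.mem_insert_self _ _))
  by_cases hee : e'' = e
  · subst hee
    exact hPγ (h0 γ hγe hγD)
  · have h1 : γ ∈ (closure (Mset ν k e'' d))ᶜ :=
      Set.mem_sInter.1 hγU _ (Finset.mem_coe.2 (Finset.mem_insert_of_mem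
        (Finset.mem_image.2 ⟨e'', by
          rw [Finset.mem_erase, Finset.mem_range]
          exact ⟨hee, by omega⟩, rfl⟩)))
    exact h1 (subset_closure hγe)

/-- The components whose general curve does not lie on a line through the vertex are Manin
components. -/
theorem not_accumulating [IsAlgClosed k] [CharZero k] (I : Invariants (Xcone ν k)) {d e : ℕ}
    (he : 1 ≤ e) (h2e : 2 * e ≤ d) :
    ¬ Accumulating I (Subtype.val ⁻¹' closure (Mset ν k e d) : Set (Mor (Xcone ν k) d)) := by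
  rintro ⟨n, Y, f, hY, hf, hfX, hfin, hb, e1, N, _, _, hdom⟩
  refine hb.not_birational hY hf hfX
    (main_birational he h2e hY hf hfX hfin (Subtype.val '' N) (by
      rintro _ ⟨g, _, rfl⟩
      exact g.2) ?_)
  intro m P hP h0
  refine density_red (by omega) h2e
    (Subtype.val '' {h : Mor (Xcone ν k) d | h ∈ (Subtype.val ⁻¹' closure (Mset ν k e d) :
      Set (Mor (Xcone ν k) d)) ∧ ∃ g ∈ N, IsComp f g.1 h.1}) ?_ ?_ m P hP ?_
  · rintro _ ⟨h, _, rfl⟩
    exact h.2
  · intro γ hγ
    have h1 := hdom (show (⟨γ, Mset_sub h2e hγ⟩ : Mor (Xcone ν k) d) ∈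
      (Subtype.val ⁻¹' closure (Mset ν k e d) : Set (Mor (Xcone ν k) d)) from subset_closure hγ)
    rw [Topology.IsInducing.subtypeVal.closure_eq_preimage_closure_image] at h1
    exact h1
  · rintro γ hγ ⟨h, ⟨_, g, hg, hgh⟩, rfl⟩
    exact h0 _ hγ ⟨g.1, ⟨g, hg, rfl⟩, hgh⟩

/-- The number of irreducible components. -/
theorem encard_components [IsAlgClosed k] [CharZero k] {d : ℕ} (hd : 1 ≤ d) :
    (irreducibleComponents (Mor (Xcone ν k) d)).encard = ((d / 2 + 1 : ℕ) : ℕ∞) := by
  obtain ⟨h1, h2⟩ := components_cone (ν := ν) (k := k) hd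
  have h3 : irreducibleComponents (Mor (Xcone ν k) d) = Set.range fun e : Fin (d / 2 + 1) =>
      (Subtype.val ⁻¹' closure (Mset ν k e d) : Set (Mor (Xcone ν k) d)) := by
    ext Z
    rw [h1 Z, Set.mem_range]
    constructor
    · rintro ⟨e, rfl⟩
      exact ⟨e, rfl⟩
    · rintro ⟨e, rfl⟩
      exact ⟨e, rfl⟩
  rw [h3, ← Set.image_univ, h2.encard_image, Set.encard_univ, ENat.card_eq_coe_fintype_card,
    Fintype.card_fin]

/-- There are at least `⌊d / 2⌋` Manin components. -/
theorem encard_manin [IsAlgClosed k] [CharZero k] (I : Invariants (Xcone ν k)) {d : ℕ}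
    (hd : 1 ≤ d) : ((d / 2 : ℕ) : ℕ∞) ≤ (maninComponents I d).encard := by
  obtain ⟨h1, h2⟩ := components_cone (ν := ν) (k := k) hd
  have h3 : ((fun e : Fin (d / 2 + 1) =>
      (Subtype.val ⁻¹' closure (Mset ν k e d) : Set (Mor (Xcone ν k) d))) ''
        Set.range (Fin.succ : Fin (d / 2) → Fin (d / 2 + 1))) ⊆ maninComponents I d := by
    rintro _ ⟨_, ⟨e, rfl⟩, rfl⟩
    refine ⟨(h1 _).2 ⟨e.succ, rfl⟩, ?_⟩
    apply not_accumulating I
    · rw [Fin.val_succ]
      omega
    · have := e.succ.2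
      omega
  have h4 := Set.encard_le_encard h3
  rw [h2.encard_image, ← Set.image_univ, (Fin.succ_injective _).encard_image, Set.encard_univ,
    ENat.card_eq_coe_fintype_card, Fintype.card_fin] at h4
  exact h4

end

end Pool.Agent.H72.GM
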