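import Mathlib
import Pool.Graph.R_seed8.Y166.GM.DefsQ
import Pool.Agent.H72.GM.Concl
import Pool.Graph.R_seed8.Y166.GM.Quo

/-!
# Rational curves up to automorphisms of the projective line
-/

set_option autoImplicit false
set_option linter.unusedSectionVars false
set_option linter.deprecated false
set_option linter.style.haveILetI false

namespace Pool.Agent.H72.GM

open Pool.Agent.Y166.GM

variable {ν : ℕ}

open MvPolynomial

section
variable {k : Type} [Field k]

/-- The value of a binary form. -/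
def bf {m : ℕ} (x : Fin (m + 1) → k) (s : Fin 2 → k) : k :=
  ∑ j : Fin (m + 1), x j * s 0 ^ (j : ℕ) * s 1 ^ (m - (j : ℕ))

theorem forms_bf {σ : Type} {d : ℕ} (c : σ × Fin (d + 1) → k) (s : Fin 2 → k) (i : σ) :
    forms c s i = bf (fun l => c (i, l)) s := rfl

theorem bf_aff {m : ℕ} (x : Fin (m + 1) → k) (s : Fin 2 → k) (hs : s 1 ≠ 0) :
    bf x s = s 1 ^ m * (pol x).eval (s 0 / s 1) :=
  forms_aff (σ := Unit) (fun p => x p.2) s hs ()

theorem bf_inf {m : ℕ} (x : Fin (m + 1) → k) (s : Fin 2 → k) (hs : s 1 = 0) :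
    bf x s = x (Fin.last m) * s 0 ^ m :=
  forms_inf (σ := Unit) (fun p => x p.2) s hs ()

theorem bf_mul {m n l : ℕ} (hl : m + n = l) (p q : Polynomial k) (hp : p.natDegree ≤ m)
    (hq : q.natDegree ≤ n) (s : Fin 2 → k) :
    bf (fun j : Fin (l + 1) => (p * q).coeff j) s =
      bf (fun j : Fin (m + 1) => p.coeff j) s * bf (fun j : Fin (n + 1) => q.coeff j) s := by
  subst hl
  by_cases hs : s 1 = 0
  · rw [bf_inf _ _ hs, bf_inf _ _ hs, bf_inf _ _ hs, Fin.val_last, Fin.val_last, Fin.val_last,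
      Polynomial.coeff_mul_add_eq_of_natDegree_le hp hq]
    ring
  · rw [bf_aff _ _ hs, bf_aff _ _ hs, bf_aff _ _ hs, pol_coeff_self _ hp, pol_coeff_self _ hq,
      pol_coeff_self _ (Polynomial.natDegree_mul_le.trans (Nat.add_le_add hp hq)),
      Polynomial.eval_mul]
    ring

theorem bf_pol {m : ℕ} (x : Fin (m + 1) → k) (s : Fin 2 → k) :
    bf (fun j : Fin (m + 1) => (pol x).coeff j) s = bf x s := by
  congr 1
  funext j
  exact pol_coeff _ _

theorem forms_Phi_some {e n d : ℕ} (hd : n + 2 * e = d) (c : Idx ν e n d → k) (s : Fin 2 → k)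
    (i j : Fin (ν + 3)) : forms (Phi c) s (some (i, j)) =
      bf (fun p => c (.inr (.inl p))) s * bf (fun p => c (.inl (i, p))) s *
        bf (fun p => c (.inl (j, p))) s := by
  rw [forms_bf]
  show bf (fun l : Fin (d + 1) => (hP c * aP c i * aP c j).coeff l) s = _
  rw [bf_mul (m := n + e) (n := e) (by omega) (hP c * aP c i) (aP c j)
    (Polynomial.natDegree_mul_le.trans (Nat.add_le_add (pol_natDegree _) (pol_natDegree _)))
    (pol_natDegree _), bf_mul (m := n) (n := e) rfl (hP c) (aP c i) (pol_natDegree _)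
    (pol_natDegree _)]
  unfold hP aP
  rw [bf_pol, bf_pol, bf_pol]

theorem forms_Phi_none {e n d : ℕ} (c : Idx ν e n d → k) (s : Fin 2 → k) :
    forms (Phi c) s none = bf (fun p => c (.inr (.inr p))) s := by
  rw [forms_bf]
  exact bf_pol _ _

theorem forms_inj [Infinite k] {σ : Type} {d : ℕ} {c c' : σ × Fin (d + 1) → k}
    (h : ∀ s, forms c s = forms c' s) : c = c' := by
  funext x
  obtain ⟨i, l⟩ := x
  have h1 : (pol fun l => c (i, l)) = pol fun l => c' (i, l) := by
    apply Polynomial.funext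
    intro t
    have := congrFun (h ![t, 1]) i
    rw [forms_aff _ _ (by simp), forms_aff _ _ (by simp)] at this
    simpa using this
  have h2 := pol_coeff (fun l => c (i, l)) l
  rw [h1, pol_coeff] at h2
  exact h2.symm

/-- The function is given by a binary form of degree `m`. -/
def IsForm (m : ℕ) (φ : (Fin 2 → k) → k) : Prop :=
  ∃ c : ℕ → k, ∀ s, φ s = ∑ l ∈ Finset.range (m + 1), c l * s 0 ^ l * s 1 ^ (m - l)

theorem IsForm.add {m : ℕ} {φ ψ : (Fin 2 → k) → k} (h : IsForm m φ) (h' : IsForm m ψ) :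
    IsForm m fun s => φ s + ψ s := by
  obtain ⟨c, hc⟩ := h
  obtain ⟨c', hc'⟩ := h'
  refine ⟨fun l => c l + c' l, fun s => ?_⟩
  show φ s + ψ s = _
  rw [hc, hc', ← Finset.sum_add_distrib]
  refine Finset.sum_congr rfl fun l _ => ?_
  ring

theorem IsForm.smul {m : ℕ} {φ : (Fin 2 → k) → k} (h : IsForm m φ) (a : k) :
    IsForm m fun s => a * φ s := by
  obtain ⟨c, hc⟩ := h
  refine ⟨fun l => a * c l, fun s => ?_⟩
  show a * φ s = _
  rw [hc, Finset.mul_sum]
  refine Finset.sum_congr rfl fun l _ => ?_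
  ring

theorem IsForm.mul0 {m : ℕ} {φ : (Fin 2 → k) → k} (h : IsForm m φ) :
    IsForm (m + 1) fun s => s 0 * φ s := by
  obtain ⟨c, hc⟩ := h
  refine ⟨fun l => if l = 0 then 0 else c (l - 1), fun s => ?_⟩
  show s 0 * φ s = _
  rw [hc, Finset.mul_sum, Finset.sum_range_succ' _ (m + 1)]
  beta_reduce
  rw [if_pos rfl, zero_mul, zero_mul, add_zero]
  refine Finset.sum_congr rfl fun l _ => ?_
  rw [if_neg (Nat.succ_ne_zero l), Nat.add_sub_cancel, Nat.add_sub_add_right]
  ring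

theorem IsForm.mul1 {m : ℕ} {φ : (Fin 2 → k) → k} (h : IsForm m φ) :
    IsForm (m + 1) fun s => s 1 * φ s := by
  obtain ⟨c, hc⟩ := h
  refine ⟨fun l => if l ≤ m then c l else 0, fun s => ?_⟩
  show s 1 * φ s = _
  rw [hc, Finset.sum_range_succ _ (m + 1), Finset.mul_sum]
  beta_reduce
  rw [if_neg (by omega), zero_mul, zero_mul, add_zero]
  refine Finset.sum_congr rfl fun l hl => ?_
  rw [Finset.mem_range] at hl
  rw [if_pos (by omega)]
  have h1 : m + 1 - l = (m - l) + 1 := by omega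
  rw [h1, pow_succ]
  ring

theorem IsForm.mulLin {m : ℕ} {φ : (Fin 2 → k) → k} (h : IsForm m φ) (a b : k) (r : ℕ) :
    IsForm (m + r) fun s => (a * s 0 + b * s 1) ^ r * φ s := by
  induction r with
  | zero =>
    have : (fun s : Fin 2 → k => (a * s 0 + b * s 1) ^ 0 * φ s) = φ := by
      funext s
      rw [pow_zero, one_mul]
    rw [this]
    exact h
  | succ r ih =>
    have h1 := (ih.mul0.smul a).add (ih.mul1.smul b)
    have h2 : (fun s : Fin 2 → k => (a * s 0 + b * s 1) ^ (r + 1) * φ s) = fun s =>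
        a * (s 0 * ((a * s 0 + b * s 1) ^ r * φ s)) +
          b * (s 1 * ((a * s 0 + b * s 1) ^ r * φ s)) := by
      funext s
      ring
    rw [h2]
    exact h1

theorem IsForm.exists_bf {m : ℕ} {φ : (Fin 2 → k) → k} (h : IsForm m φ) :
    ∃ x : Fin (m + 1) → k, ∀ s, φ s = bf x s := by
  obtain ⟨c, hc⟩ := h
  refine ⟨fun j => c j, fun s => ?_⟩
  rw [hc, bf, Fin.sum_univ_eq_sum_range (fun j => c j * s 0 ^ j * s 1 ^ (m - j)) (m + 1)]

theorem isForm_one : IsForm 0 fun _ : Fin 2 → k => (1 : k) :=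
  ⟨fun _ => 1, fun s => by simp⟩

/-- The monomials under a linear substitution. -/
theorem exists_subst (A : Matrix (Fin 2) (Fin 2) k) (d : ℕ) :
    ∃ a : Fin (d + 1) → Fin (d + 1) → k, ∀ (j : Fin (d + 1)) (s : Fin 2 → k),
      (A.mulVec s) 0 ^ (j : ℕ) * (A.mulVec s) 1 ^ (d - (j : ℕ)) = bf (a j) s := by
  have h1 : ∀ j : Fin (d + 1), IsForm d fun s : Fin 2 → k =>
      (A.mulVec s) 0 ^ (j : ℕ) * (A.mulVec s) 1 ^ (d - (j : ℕ)) := by
    intro j
    have h2 := ((isForm_one (k := k)).mulLin (A 1 0) (A 1 1) (d - (j : ℕ))).mulLin (A 0 0) (A 0 1)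
      (j : ℕ)
    have h3 : 0 + (d - (j : ℕ)) + (j : ℕ) = d := by
      have := j.2
      omega
    rw [h3] at h2
    have h4 : (fun s : Fin 2 → k => (A.mulVec s) 0 ^ (j : ℕ) * (A.mulVec s) 1 ^ (d - (j : ℕ))) =
        fun s => (A 0 0 * s 0 + A 0 1 * s 1) ^ (j : ℕ) *
          ((A 1 0 * s 0 + A 1 1 * s 1) ^ (d - (j : ℕ)) * 1) := by
      funext s
      rw [Matrix.mulVec, Matrix.mulVec, dotProduct, dotProduct, Fin.sum_univ_two,
        Fin.sum_univ_two, mul_one]
    rw [h4]
    exact h2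
  choose a ha using fun j => (h1 j).exists_bf
  exact ⟨a, ha⟩

theorem bf_subst {A : Matrix (Fin 2) (Fin 2) k} {d : ℕ} {a : Fin (d + 1) → Fin (d + 1) → k}
    (ha : ∀ (j : Fin (d + 1)) (s : Fin 2 → k),
      (A.mulVec s) 0 ^ (j : ℕ) * (A.mulVec s) 1 ^ (d - (j : ℕ)) = bf (a j) s)
    (x : Fin (d + 1) → k) (s : Fin 2 → k) :
    bf x (A.mulVec s) = bf (fun l => ∑ j, a j l * x j) s := by
  have h1 : bf x (A.mulVec s) = ∑ j, x j * bf (a j) s := by
    unfold bf
    refine Finset.sum_congr rfl fun j _ => ?_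
    rw [mul_assoc, ha j s]
    rfl
  rw [h1]
  unfold bf
  simp only [Finset.mul_sum, Finset.sum_mul]
  rw [Finset.sum_comm]
  refine Finset.sum_congr rfl fun l _ => Finset.sum_congr rfl fun j _ => ?_
  ring

theorem mulVec_ne {A : Matrix (Fin 2) (Fin 2) k} (hA : A.det ≠ 0) {s : Fin 2 → k} (hs : s ≠ 0) :
    A.mulVec s ≠ 0 := by
  intro h
  exact hA (Matrix.exists_mulVec_eq_zero_iff.1 ⟨s, hs, h⟩)

/-- The strata are stable under automorphisms of the projective line. -/
theorem Mset_reparam [Infinite k] {e d : ℕ} (he : 2 * e ≤ d) {γ γ' : PP k (Tau ν × Fin (d + 1))}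
    (h : Reparam γ γ') (hγ : γ ∈ Mset ν k e d) : γ' ∈ Mset ν k e d := by
  obtain ⟨A, hA, c1, hc1, hc1'⟩ := h
  obtain ⟨c, hc, hnz⟩ := hγ
  obtain ⟨c2, hc2⟩ := exists_Phi hc (rep_rep γ)
  obtain ⟨ae, hae⟩ := exists_subst A e
  obtain ⟨an, han⟩ := exists_subst A (d - 2 * e)
  obtain ⟨ad, had⟩ := exists_subst A d
  let c3 : Idx ν e (d - 2 * e) d → k := fun x => match x with
    | .inl (i, l) => ∑ j, ae j l * c2 (.inl (i, j))
    | .inr (.inl l) => ∑ j, an j l * c2 (.inr (.inl j))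
    | .inr (.inr l) => ∑ j, ad j l * c2 (.inr (.inr j))
  have h3 : ∀ s, forms (Phi c3) s = forms (Phi c2) (A.mulVec s) := by
    intro s
    funext x
    rcases x with _ | ⟨i, j⟩
    · rw [forms_Phi_none, forms_Phi_none, bf_subst had]
    · rw [forms_Phi_some (by omega), forms_Phi_some (by omega), bf_subst han, bf_subst hae,
        bf_subst hae]
  have h4 : c1 = Phi c3 := by
    apply forms_inj
    intro s
    rw [hc1', h3, hc2]
  refine ⟨c3, by rw [← h4]; exact hc1, ?_⟩
  intro s hs h0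
  rw [h3, ← hc2] at h0
  obtain ⟨b, hb, hcb⟩ := (rep_rep γ).exists_smul hc
  apply hnz _ (mulVec_ne hA hs)
  rw [hcb, forms_smul, h0, smul_zero]

/-- Automorphisms of the projective line act continuously. -/
theorem closure_reparam [Infinite k] {σ : Type} {d : ℕ} (D : Set (PP k (σ × Fin (d + 1))))
    (hD : ∀ γ γ', Reparam γ γ' → γ ∈ D → γ' ∈ D)
    (hD0 : ∀ γ ∈ D, NoZero γ.rep) {γ γ' : PP k (σ × Fin (d + 1))} (h : Reparam γ γ')
    (hγ : γ ∈ closure D) : γ' ∈ closure D := by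
  obtain ⟨A, hA, c1, hc1, hc1'⟩ := h
  obtain ⟨a, ha⟩ := exists_subst A d
  let F : σ × Fin (d + 1) → MvPolynomial (σ × Fin (d + 1)) k := fun x =>
    ∑ j, C (a j x.2) * X (x.1, j)
  have hF : ∀ x, (F x).IsHomogeneous 1 := fun x =>
    IsHomogeneous.sum _ _ _ fun j _ => isHomogeneous_C_mul_X _ _
  have hFe : ∀ c s, forms (fun x => eval c (F x)) s = forms c (A.mulVec s) := by
    intro c s
    funext i
    rw [forms_bf, forms_bf, bf_subst ha]
    congr 1
    funext l
    show eval c (∑ j, C (a j l) * X (i, j)) = _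
    rw [map_sum]
    refine Finset.sum_congr rfl fun j _ => ?_
    rw [map_mul, eval_C, eval_X]
  rw [mem_closure_iff'] at hγ ⊢
  intro m P hP h0
  have h1 := hγ (1 * m) (aeval F P) (hP.aeval F hF) (by
    intro q hq
    rw [eval_aeval]
    have hne : (fun x => eval q.rep (F x)) ≠ 0 := by
      intro h2
      apply hD0 q hq (A.mulVec ![1, 0]) (mulVec_ne hA (by
        intro h3
        have := congrFun h3 0
        simp at this))
      rw [← hFe, h2]
      funext i
      simp [forms]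
    obtain ⟨q', hq'⟩ := exists_rep hne
    rw [zero_iff hq' hP]
    apply h0
    exact hD q q' ⟨A, hA, _, hq', fun s => hFe _ s⟩ hq)
  rw [eval_aeval] at h1
  have h2 : c1 = fun x => eval γ.rep (F x) := by
    apply forms_inj
    intro s
    rw [hc1', hFe]
  rw [← zero_iff hc1 hP, h2]
  exact h1

/-- The irreducible components of a quotient. -/
theorem quot_components {T ι : Type} [TopologicalSpace T] [Finite ι] (r : T → T → Prop)
    (Z : ι → Set T) (hcl : ∀ i, IsClosed (Z i)) (hirr : ∀ i, IsIrreducible (Z i))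
    (hcov : ∀ x, ∃ i, x ∈ Z i) (hsep : ∀ i j, Z i ⊆ Z j → i = j)
    (hsat : ∀ i x y, r x y → (x ∈ Z i ↔ y ∈ Z i)) :
    (∀ W : Set (Quot r), W ∈ irreducibleComponents (Quot r) ↔ ∃ i, W = Quot.mk r '' Z i) ∧
    Function.Injective fun i => Quot.mk r '' Z i := by
  have hmem : ∀ i x, Quot.mk r x ∈ Quot.mk r '' Z i ↔ x ∈ Z i := by
    intro i x
    constructor
    · rintro ⟨y, hy, hxy⟩
      have h1 := congrArg (Quot.lift (fun x => x ∈ Z i) fun x y h => propext (hsat i x y h)) hxy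
      have h2 : (y ∈ Z i) = (x ∈ Z i) := h1
      rw [← h2]
      exact hy
    · exact fun h => ⟨x, h, rfl⟩
  have hcl' : ∀ i, IsClosed (Quot.mk r '' Z i) := by
    intro i
    rw [← isQuotientMap_quot_mk.isClosed_preimage]
    have : Quot.mk r ⁻¹' (Quot.mk r '' Z i) = Z i := by
      ext x
      exact hmem i x
    rw [this]
    exact hcl i
  have hirr' : ∀ i, IsIrreducible (Quot.mk r '' Z i) := fun i =>
    (hirr i).image _ continuous_quot_mk.continuousOn
  have hsub : ∀ i j, Quot.mk r '' Z i ⊆ Quot.mk r '' Z j → i = j := by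
    intro i j h
    apply hsep
    intro x hx
    exact (hmem j x).1 (h ⟨x, hx, rfl⟩)
  have hcov' : ∀ W : Set (Quot r), IsIrreducible W → ∃ i, W ⊆ Quot.mk r '' Z i := by
    intro W hW
    obtain ⟨z, hz, hWz⟩ := (isIrreducible_iff_sUnion_isClosed.1 hW)
      ((Set.finite_range fun i => Quot.mk r '' Z i).toFinset) (by
        intro z hz
        rw [Set.Finite.mem_toFinset] at hz
        obtain ⟨i, rfl⟩ := hz
        exact hcl' i) (by
        intro q _
        induction q using Quot.ind with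
        | mk x =>
          obtain ⟨i, hi⟩ := hcov x
          rw [Set.mem_sUnion]
          refine ⟨_, ?_, (hmem i x).2 hi⟩
          rw [Finset.mem_coe, Set.Finite.mem_toFinset]
          exact ⟨i, rfl⟩)
    rw [Set.Finite.mem_toFinset] at hz
    obtain ⟨i, rfl⟩ := hz
    exact ⟨i, hWz⟩
  refine ⟨fun W => ⟨fun hW => ?_, ?_⟩, fun i j h => hsub i j (le_of_eq h)⟩
  · obtain ⟨i, hi⟩ := hcov' W hW.1
    exact ⟨i, le_antisymm hi (hW.2 (hirr' i) hi)⟩
  · rintro ⟨i, rfl⟩
    refine ⟨hirr' i, fun W hW hle => ?_⟩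
    obtain ⟨j, hj⟩ := hcov' W hW
    have := hsub i j (le_trans hle hj)
    subst this
    exact hj

/-- The irreducible components of the space of rational curves on the cone. -/
theorem components_Q [IsAlgClosed k] [CharZero k] {d : ℕ} (hd : 1 ≤ d) :
    (∀ W : Set (Curves (Xcone ν k) d), W ∈ irreducibleComponents (Curves (Xcone ν k) d) ↔
      ∃ e : Fin (d / 2 + 1), W = Quot.mk _ '' (Subtype.val ⁻¹' closure (Mset ν k e d) :
        Set (Mor (Xcone ν k) d))) ∧
    Function.Injective fun e : Fin (d / 2 + 1) => (Quot.mk _ ''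
      (Subtype.val ⁻¹' closure (Mset ν k e d) : Set (Mor (Xcone ν k) d)) :
        Set (Curves (Xcone ν k) d)) := by
  haveI : Infinite k := IsAlgClosed.instInfinite
  have h2 : ∀ e : Fin (d / 2 + 1), 2 * (e : ℕ) ≤ d := fun e => by
    have := e.2
    omega
  obtain ⟨hc1, hc2⟩ := components_cone (ν := ν) (k := k) hd
  have hcomp : ∀ e : Fin (d / 2 + 1), (Subtype.val ⁻¹' closure (Mset ν k e d) :
      Set (Mor (Xcone ν k) d)) ∈ irreducibleComponents (Mor (Xcone ν k) d) := fun e =>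
    (hc1 _).2 ⟨e, rfl⟩
  refine quot_components (fun γ γ' : Mor (Xcone ν k) d => Reparam γ.1 γ'.1)
    (fun e : Fin (d / 2 + 1) => (Subtype.val ⁻¹' closure (Mset ν k e d) :
      Set (Mor (Xcone ν k) d))) ?_ (fun e => (hcomp e).1) ?_ ?_ ?_
  · intro e
    exact isClosed_closure.preimage continuous_subtype_val
  · intro x
    obtain ⟨e, he, hx⟩ := cover hd x.2
    exact ⟨⟨e, by omega⟩, subset_closure hx⟩
  · intro i j hij
    apply hc2
    exact le_antisymm hij ((hcomp i).2 (hcomp j).1 hij)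
  · intro e x y hxy
    have hnz : ∀ γ ∈ Mset ν k e d, NoZero γ.rep := by
      intro γ hγ s hs
      obtain ⟨z, _, hz⟩ := Mset_sub (h2 e) hγ s hs
      exact hz.ne_zero
    constructor
    · intro h
      exact closure_reparam (Mset ν k e d) (fun γ γ' h h' => Mset_reparam (h2 e) h h') hnz hxy h
    · intro h
      exact closure_reparam (Mset ν k e d) (fun γ γ' h h' => Mset_reparam (h2 e) h h') hnz
        hxy.symm h

theorem not_accumulatingQ [IsAlgClosed k] [CharZero k] (I : Invariants (Xcone ν k)) {d e : ℕ}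
    (he : 1 ≤ e) (h2e : 2 * e ≤ d) :
    ¬ AccumulatingQ I (Quot.mk _ '' (Subtype.val ⁻¹' closure (Mset ν k e d) :
      Set (Mor (Xcone ν k) d)) : Set (Curves (Xcone ν k) d)) := by
  haveI : Infinite k := IsAlgClosed.instInfinite
  have hd : 1 ≤ d := by omega
  rintro ⟨n, Y, f, hY, hf, hfX, hfin, hb, e1, N, _, _, hdom⟩
  let N' : Set (Mor Y e1) := {g | Quot.mk _ g ∈ N}
  let D : Set (Mor (Xcone ν k) d) := {h | ∃ g ∈ N', IsComp f g.1 h.1}
  -- `D` is stable
  have hDsat : ∀ γ γ' : PP k (Tau ν × Fin (d + 1)), Reparam γ γ' →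
      γ ∈ (Subtype.val '' D : Set (PP k (Tau ν × Fin (d + 1)))) →
      γ' ∈ (Subtype.val '' D : Set (PP k (Tau ν × Fin (d + 1)))) := by
    rintro γ γ' ⟨A, hA, c, hc, hc'⟩ ⟨h, ⟨g, hg, hgh⟩, rfl⟩
    -- the reparametrised curves
    have hmove : ∀ {σ : Type} {m : ℕ} (Z : Set (PP k σ)) (γ : PP k (σ × Fin (m + 1))),
        γ ∈ Mor Z m → ∀ (γ' : PP k (σ × Fin (m + 1))) c, Rep γ' c →
        (∀ s : Fin 2 → k, forms c s = forms γ.rep (A.mulVec s)) → γ' ∈ Mor Z m := by
      intro σ m Z γ hγ γ' c hc hc'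
      rw [mem_Mor_iff hc]
      intro s hs
      rw [hc']
      exact hγ _ (mulVec_ne hA hs)
    obtain ⟨a, ha⟩ := exists_subst A e1
    have hg' : ∃ (g' : Mor Y e1) (c' : Fin (n + 1) × Fin (e1 + 1) → k), Rep g'.1 c' ∧
        ∀ s : Fin 2 → k, forms c' s = forms g.1.rep (A.mulVec s) := by
      let c' : Fin (n + 1) × Fin (e1 + 1) → k := fun x => ∑ j, a j x.2 * g.1.rep (x.1, j)
      have hc'' : ∀ s : Fin 2 → k, forms c' s = forms g.1.rep (A.mulVec s) := by
        intro s
        funext i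
        rw [forms_bf, forms_bf, bf_subst ha]
      have hne : c' ≠ 0 := by
        intro h2
        have hs : (![1, 0] : Fin 2 → k) ≠ 0 := by
          intro h3
          have := congrFun h3 0
          simp at this
        obtain ⟨z, _, hz⟩ := g.2 (A.mulVec ![1, 0]) (mulVec_ne hA hs)
        apply hz.ne_zero
        rw [← hc'', h2]
        funext i
        simp [forms]
      obtain ⟨q, hq⟩ := exists_rep hne
      exact ⟨⟨q, hmove Y g.1 g.2 q c' hq hc''⟩, c', hq, hc''⟩
    obtain ⟨g', c', hgc, hgc'⟩ := hg'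
    have hh' : γ' ∈ Mor (Xcone ν k) d := hmove _ h.1 h.2 γ' c hc hc'
    refine ⟨⟨γ', hh'⟩, ⟨g', ?_, ?_⟩, rfl⟩
    · show Quot.mk _ g' ∈ N
      have : (Quot.mk _ g : Curves Y e1) = Quot.mk _ g' :=
        Quot.sound ⟨A, hA, c', hgc, hgc'⟩
      rw [← this]
      exact hg
    · exact hgh.reparam hA ⟨c', hgc, hgc'⟩ ⟨c, hc, hc'⟩
  have hDnz : ∀ γ ∈ (Subtype.val '' D : Set (PP k (Tau ν × Fin (d + 1)))), NoZero γ.rep := by
    rintro _ ⟨h, _, rfl⟩ s hs
    obtain ⟨z, _, hz⟩ := h.2 s hs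
    exact hz.ne_zero
  have hCsat : ∀ x y : Mor (Xcone ν k) d, Reparam x.1 y.1 →
      ((x.1 ∈ closure (Subtype.val '' D : Set (PP k (Tau ν × Fin (d + 1))))) =
        (y.1 ∈ closure (Subtype.val '' D : Set (PP k (Tau ν × Fin (d + 1)))))) := by
    intro x y hxy
    exact propext ⟨fun h => closure_reparam _ hDsat hDnz hxy h,
      fun h => closure_reparam _ hDsat hDnz hxy.symm h⟩
  let CQ : Set (Curves (Xcone ν k) d) := {q | Quot.lift (fun x : Mor (Xcone ν k) d =>
    x.1 ∈ closure (Subtype.val '' D : Set (PP k (Tau ν × Fin (d + 1))))) hCsat q}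
  have hCQ : IsClosed CQ := by
    rw [← isQuotientMap_quot_mk.isClosed_preimage]
    exact isClosed_closure.preimage continuous_subtype_val
  have hsub : closure {x : Curves (Xcone ν k) d | x ∈ (Quot.mk _ '' (Subtype.val ⁻¹'
      closure (Mset ν k e d) : Set (Mor (Xcone ν k) d)) : Set (Curves (Xcone ν k) d)) ∧
      ∃ y ∈ N, IsCompQ f y x} ⊆ CQ := by
    apply closure_minimal _ hCQ
    rintro x ⟨_, y, hy, g, h, hg, hh, hgh⟩
    rw [← hh]
    show h.1 ∈ closure (Subtype.val '' D : Set (PP k (Tau ν × Fin (d + 1))))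
    apply subset_closure
    refine ⟨h, ⟨g, ?_, hgh⟩, rfl⟩
    show Quot.mk _ g ∈ N
    rw [hg]
    exact hy
  refine hb.not_birational hY hf hfX
    (main_birational he h2e hY hf hfX hfin (Subtype.val '' N') (by
      rintro _ ⟨g, _, rfl⟩
      exact g.2) ?_)
  intro m P hP h0
  refine density_red hd h2e (Subtype.val '' D) ?_ ?_ m P hP ?_
  · rintro _ ⟨h, _, rfl⟩
    exact h.2
  · intro γ hγ
    have h1 : (Quot.mk _ (⟨γ, Mset_sub h2e hγ⟩ : Mor (Xcone ν k) d) : Curves (Xcone ν k) d) ∈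
        (Quot.mk _ '' (Subtype.val ⁻¹' closure (Mset ν k e d) :
          Set (Mor (Xcone ν k) d)) : Set (Curves (Xcone ν k) d)) := ⟨_, subset_closure hγ, rfl⟩
    exact hsub (hdom h1)
  · rintro γ hγ ⟨h, ⟨g, hg, hgh⟩, rfl⟩
    exact h0 _ hγ ⟨g.1, ⟨g, hg, rfl⟩, hgh⟩

/-- The number of irreducible components. -/
theorem encard_components_Q [IsAlgClosed k] [CharZero k] {d : ℕ} (hd : 1 ≤ d) :
    (irreducibleComponents (Curves (Xcone ν k) d)).encard = ((d / 2 + 1 : ℕ) : ℕ∞) := by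
  obtain ⟨h1, h2⟩ := components_Q (ν := ν) (k := k) hd
  have h3 : irreducibleComponents (Curves (Xcone ν k) d) = Set.range fun e : Fin (d / 2 + 1) =>
      (Quot.mk _ '' (Subtype.val ⁻¹' closure (Mset ν k e d) : Set (Mor (Xcone ν k) d)) :
        Set (Curves (Xcone ν k) d)) := by
    ext Z
    rw [h1 Z, Set.mem_range]
    constructor
    · rintro ⟨e, rfl⟩
      exact ⟨e, rfl⟩
    · rintro ⟨e, rfl⟩
      exact ⟨e, rfl⟩
  rw [h3, ← Set.image_univ, h2.encard_image, Set.encard_univ, ENat.card_eq_coe_fintype_card,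
    Fintype.card_fin]

/-- There are at least `⌊d / 2⌋` Manin components. -/
theorem encard_manin_Q [IsAlgClosed k] [CharZero k] (I : Invariants (Xcone ν k)) {d : ℕ}
    (hd : 1 ≤ d) : ((d / 2 : ℕ) : ℕ∞) ≤ (maninCurves I d).encard := by
  obtain ⟨h1, h2⟩ := components_Q (ν := ν) (k := k) hd
  have h3 : ((fun e : Fin (d / 2 + 1) =>
      (Quot.mk _ '' (Subtype.val ⁻¹' closure (Mset ν k e d) : Set (Mor (Xcone ν k) d)) :
        Set (Curves (Xcone ν k) d))) ''
        Set.range (Fin.succ : Fin (d / 2) → Fin (d / 2 + 1))) ⊆ maninCurves I d := by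
    rintro _ ⟨_, ⟨e, rfl⟩, rfl⟩
    refine ⟨(h1 _).2 ⟨e.succ, rfl⟩, ?_⟩
    apply not_accumulatingQ I
    · rw [Fin.val_succ]
      omega
    · have := e.succ.2
      omega
  have h4 := Set.encard_le_encard h3
  rw [h2.encard_image, ← Set.image_univ, (Fin.succ_injective _).encard_image, Set.encard_univ,
    ENat.card_eq_coe_fintype_card, Fintype.card_fin] at h4
  exact h4

end

end Pool.Agent.H72.GM
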