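import Mathlib
import Pool.Agent.H72.GM.Concl

/-!
# The cone over the Veronese variety is the weighted projective space `P(1,...,1,2)`
-/

set_option autoImplicit false
set_option linter.unusedSectionVars false
set_option linter.deprecated false
set_option linter.style.haveILetI false

namespace Pool.Agent.H72.GM

open Pool.Agent.Y166.GM

variable {ν : ℕ}

open MvPolynomial

section
variable {k : Type} [Field k]

theorem exists_ver [IsAlgClosed k] (V : Tau ν → k)
    (hs : ∀ i j, V (some (i, j)) = V (some (j, i)))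
    (hr : ∀ i j l m, V (some (i, j)) * V (some (l, m)) = V (some (i, m)) * V (some (l, j))) :
    ∃ (x : Fin (ν + 3) → k) (y : k), V = ver x y := by
  by_cases h0 : ∀ i j, V (some (i, j)) = 0
  · refine ⟨0, V none, ?_⟩
    funext j
    rcases j with _ | ⟨i, j⟩
    · rfl
    · rw [h0 i j]
      show (0 : k) = 0 * 0
      rw [mul_zero]
  · push Not at h0
    obtain ⟨i, j, hij⟩ := h0
    have h1 : V (some (i, i)) ≠ 0 := by
      intro h
      have h2 := hr i j j i
      rw [h, zero_mul, hs j i] at h2
      exact hij (mul_self_eq_zero.1 h2)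
    obtain ⟨r, hr2⟩ := IsAlgClosed.exists_pow_nat_eq (V (some (i, i))) (show 0 < 2 by norm_num)
    have hr0 : r ≠ 0 := by
      intro h
      rw [h] at hr2
      exact h1 (by rw [← hr2]; ring)
    refine ⟨fun j => V (some (i, j)) / r, V none, ?_⟩
    funext j
    rcases j with _ | ⟨a, b⟩
    · rfl
    · show V (some (a, b)) = V (some (i, a)) / r * (V (some (i, b)) / r)
      have h2 := hr a b i i
      rw [← hr2, hs a i] at h2
      field_simp
      rw [mul_comm] at h2
      rw [← h2]
      ring

theorem Xcone_eq [IsAlgClosed k] : Xcone ν k = zeros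
    ({P : MvPolynomial (Tau ν) k | ∃ i j, P = X (some (i, j)) - X (some (j, i))} ∪
      {P | ∃ i j l m, P = X (some (i, j)) * X (some (l, m)) -
        X (some (i, m)) * X (some (l, j))}) := by
  apply Set.Subset.antisymm
  · rintro p ⟨x, y, hp⟩ P hP
    obtain ⟨c, _, hc⟩ := hp.exists_smul (rep_rep p)
    rcases hP with ⟨i, j, rfl⟩ | ⟨i, j, l, m, rfl⟩
    · rw [map_sub, eval_X, eval_X, hc]
      show c * (x i * x j) - c * (x j * x i) = 0
      ring
    · rw [map_sub, map_mul, map_mul, eval_X, eval_X, eval_X, eval_X, hc]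
      show c * (x i * x j) * (c * (x l * x m)) - c * (x i * x m) * (c * (x l * x j)) = 0
      ring
  · intro p hp
    obtain ⟨x, y, hxy⟩ := exists_ver p.rep (fun i j => by
        have := hp _ (Or.inl ⟨i, j, rfl⟩)
        rw [map_sub, eval_X, eval_X, sub_eq_zero] at this
        exact this) (fun i j l m => by
        have := hp _ (Or.inr ⟨i, j, l, m, rfl⟩)
        rw [map_sub, map_mul, map_mul, eval_X, eval_X, eval_X, eval_X, sub_eq_zero] at this
        exact this)
    exact ⟨x, y, by rw [← hxy]; exact rep_rep p⟩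

/-- The cone is a projective variety. -/
theorem Xcone_projVar [IsAlgClosed k] : IsProjVar (Xcone ν k) := by
  haveI : Infinite k := IsAlgClosed.instInfinite
  refine ⟨?_, ?_, ?_⟩
  · rw [isClosed_iff, Xcone_eq]
    refine ⟨_, ?_, rfl⟩
    rintro P (⟨i, j, rfl⟩ | ⟨i, j, l, m, rfl⟩)
    · exact ⟨1, (isHomogeneous_X _ _).sub (isHomogeneous_X _ _)⟩
    · exact ⟨1 + 1, ((isHomogeneous_X _ _).mul (isHomogeneous_X _ _)).sub
        ((isHomogeneous_X _ _).mul (isHomogeneous_X _ _))⟩
  · obtain ⟨p, hp⟩ := exists_rep (k := k) (v := ver (fun _ : Fin (ν + 3) => (1 : k)) 1) (by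
      intro h
      exact one_ne_zero (congrFun h none))
    exact ⟨p, _, _, hp⟩
  · apply isPreirreducible_of
    rintro m n P Q hP hQ ⟨p, ⟨x, y, hp⟩, hpP⟩ ⟨q, ⟨x', y', hq⟩, hqQ⟩
    let V : Tau ν → MvPolynomial (Option (Fin (ν + 3))) k := ver (fun i => X (some i)) (X none)
    have hV : ∀ (x : Fin (ν + 3) → k) (y : k) (P : MvPolynomial (Tau ν) k),
        eval (fun o : Option (Fin (ν + 3)) => o.elim y x) (aeval V P) = eval (ver x y) P := by
      intro x y P
      rw [eval_aeval]
      congr 1
      congr 1
      funext j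
      rcases j with _ | ⟨i, j⟩
      · exact eval_X _
      · show eval _ (X (some i) * X (some j)) = x i * x j
        rw [map_mul, eval_X, eval_X]
        rfl
    have h1 : aeval V P ≠ 0 := by
      intro h
      apply hpP
      rw [← zero_iff hp hP, ← hV, h, map_zero]
    have h2 : aeval V Q ≠ 0 := by
      intro h
      apply hqQ
      rw [← zero_iff hq hQ, ← hV, h, map_zero]
    have h3 : ∃ z : Option (Fin (ν + 3)) → k, eval z (aeval V P * aeval V Q * X none) ≠ 0 := by
      by_contra hcon
      push Not at hcon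
      have h4 : aeval V P * aeval V Q * X none = 0 := by
        apply MvPolynomial.funext
        intro z
        rw [hcon, map_zero]
      exact mul_ne_zero (mul_ne_zero h1 h2) (X_ne_zero _) h4
    obtain ⟨z, hz⟩ := h3
    rw [map_mul, map_mul, eval_X] at hz
    have hz' : z = fun o : Option (Fin (ν + 3)) => o.elim (z none) fun i => z (some i) := by
      funext o
      rcases o with _ | i <;> rfl
    have hPz := left_ne_zero_of_mul (left_ne_zero_of_mul hz)
    have hQz := right_ne_zero_of_mul (left_ne_zero_of_mul hz)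
    rw [hz', hV] at hPz hQz
    obtain ⟨r, hr⟩ := exists_rep (k := k) (v := ver (fun i => z (some i)) (z none)) (by
      intro h
      exact (right_ne_zero_of_mul hz) (congrFun h none))
    refine ⟨r, ⟨_, _, hr⟩, ?_, ?_⟩
    · intro h
      exact hPz ((zero_iff hr hP).2 h)
    · intro h
      exact hQz ((zero_iff hr hQ).2 h)

/-- The coordinates define an injection from the weighted projective space. -/
theorem ver_orbit [IsAlgClosed k] (x x' : Fin (ν + 3) → k) (y y' : k) (h0 : x ≠ 0 ∨ y ≠ 0) :
    (∃ p : PP k (Tau ν), Rep p (ver x y) ∧ Rep p (ver x' y')) ↔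
      ∃ t : k, t ≠ 0 ∧ x' = t • x ∧ y' = t ^ 2 * y := by
  have hne : ver x y ≠ 0 := by
    intro h
    rcases h0 with h1 | h1
    · apply h1
      funext i
      have := congrFun h (some (i, i))
      exact mul_self_eq_zero.1 this
    · exact h1 (congrFun h none)
  constructor
  · rintro ⟨p, hp, hp'⟩
    obtain ⟨c, hc, hcc⟩ := hp.exists_smul hp'
    have hx : ∀ i j, x' i * x' j = c * (x i * x j) := fun i j => congrFun hcc (some (i, j))
    have hy : y' = c * y := congrFun hcc none
    by_cases hx0 : x = 0
    · obtain ⟨t, ht⟩ := IsAlgClosed.exists_pow_nat_eq c (show 0 < 2 by norm_num)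
      refine ⟨t, ?_, ?_, ?_⟩
      · intro h
        rw [h] at ht
        exact hc (by rw [← ht]; ring)
      · funext i
        have := hx i i
        rw [hx0, Pi.zero_apply, mul_zero, mul_zero] at this
        rw [mul_self_eq_zero.1 this, hx0, Pi.smul_apply, Pi.zero_apply, smul_zero]
      · rw [ht, hy]
    · obtain ⟨i, hi⟩ := Function.ne_iff.1 hx0
      rw [Pi.zero_apply] at hi
      have h1 : x' i ≠ 0 := by
        intro h
        have := hx i i
        rw [h, zero_mul] at this
        exact mul_ne_zero hc (mul_ne_zero hi hi) this.symm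
      have h2 : c = (x' i / x i) ^ 2 := by
        have := hx i i
        field_simp
        rw [sq, sq, this]
      refine ⟨x' i / x i, div_ne_zero h1 hi, ?_, ?_⟩
      · funext j
        rw [Pi.smul_apply, smul_eq_mul]
        apply mul_left_cancel₀ h1
        rw [hx i j, h2]
        field_simp
      · rw [← h2, hy]
  · rintro ⟨t, ht, rfl, rfl⟩
    obtain ⟨p, hp⟩ := exists_rep (k := k) hne
    refine ⟨p, hp, ?_⟩
    have h1 := hp.smul (pow_ne_zero 2 ht)
    have h2 : t ^ 2 • ver x y = ver (t • x) (t ^ 2 * y) := by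
      funext j
      rcases j with _ | ⟨i, j⟩
      · rfl
      · show t ^ 2 * (x i * x j) = t * x i * (t * x j)
        ring
    rw [h2] at h1
    exact h1

end

end Pool.Agent.H72.GM
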